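import Pool.Agent.Helper78.DT.Goals3

/-!
# Project DT, packet APX: the approximation theorem
-/

namespace Pool.Agent.Helper39.DT

open Pool.Agent.Helper81.CC Pool.Agent.Helper51.ZP Pool.Agent.Helper78.DT

lemma pv_congr {R d x : ℕ} {cs cs' : ℕ → ℕ} (h : ∀ i < d, cs i = cs' i) :
    pv R d cs x = pv R d cs' x := by
  unfold pv
  congr 1
  exact Finset.sum_congr rfl (fun i hi => by rw [h i (Finset.mem_range.1 hi)])

lemma pt_congr {P K t e : ℕ} {A A' : ℕ → ℕ} (h : ∀ i < t + 2, A i = A' i) :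
    pt P K t e A = pt P K t e A' := by
  funext v
  unfold pt
  rw [h 0 (by omega)]
  congr 1
  exact pv_congr (fun i hi => h (i + 1) (by omega))

lemma cn_congr {R P K t e d : ℕ} (hK : 0 < K) {A A' θ θ' s s' : ℕ → ℕ}
    (hA : ∀ i < t + 2, A i = A' i) (hθ : ∀ i < d, θ i = θ' i) (hs : ∀ i < K, s i = s' i) :
    cn R P K t e d A θ s = cn R P K t e d A' θ' s' := by
  funext v
  unfold cn
  rw [pt_congr (P := P) (K := K) (e := e) hA]
  have h1 : pt P K t e A' v < K := Nat.mod_lt _ hK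
  rw [hs _ h1]
  unfold hb
  rw [pv_congr hθ]

lemma two_pow_lg (N : ℕ) : N < 2 ^ lg N ∧ 2 ^ lg N ≤ 4 * N + 4 := by
  unfold lg
  constructor
  · have h1 := Nat.lt_pow_succ_log_self (b := 2) (by norm_num) N
    refine lt_of_lt_of_le h1 (Nat.pow_le_pow_right (by norm_num) (by omega))
  · rw [pow_add]
    rcases Nat.eq_zero_or_pos N with h | h
    · subst h; simp
    · have h1 := Nat.pow_log_le_self 2 h.ne'
      omega

lemma rounding {M y Z : ℝ} (hZ : 0 < Z) (r1 : M * (2 * Z) ≤ 2 * y * Z + Z)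
    (r2 : 2 * y * Z + Z < (M + 1) * (2 * Z)) : |M - y| ≤ 1 / 2 := by
  have h1 : (M - y - 1 / 2) * (2 * Z) ≤ 0 := by linarith
  have h2 : (y - M - 1 / 2) * (2 * Z) < 0 := by linarith
  have hZ2 : 0 < 2 * Z := by linarith
  have h3 : M - y - 1 / 2 ≤ 0 := by
    by_contra hcon
    rw [not_le] at hcon
    have := mul_pos hcon hZ2
    linarith
  have h4 : y - M - 1 / 2 ≤ 0 := by
    by_contra hcon
    rw [not_le] at hcon
    have := mul_pos hcon hZ2
    linarith
  rw [abs_le]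
  constructor <;> linarith

lemma final_bound {m l ρ p E : ℝ} (hl : 0 < l) (r3 : |m - l * ρ| ≤ 1 / 2)
    (h : |ρ - p| < E) (hE : E ≤ 1 / (2 * l)) : |m / l - p| ≤ 1 / l := by
  have r4 : |m / l - ρ| ≤ 1 / (2 * l) := by
    have e1 : m / l - ρ = (m - l * ρ) / l := by
      field_simp
    rw [e1, abs_div, abs_of_pos hl, div_le_iff₀ hl]
    refine le_trans r3 (le_of_eq ?_)
    field_simp
  have e2 : 1 / l = 1 / (2 * l) + 1 / (2 * l) := by
    field_simp
    norm_num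
  have e3 : m / l - p = (m / l - ρ) + (ρ - p) := by ring
  rw [e2, e3]
  exact le_trans (abs_add_le _ _) (add_le_add r4 (le_trans h.le hE))

theorem apx_thm (hTot : TotStmt) (hPara : ParaStmt) (hParb : ParbStmt) (hDig : DigStmt) :
    ApxStmt := by
  intro c
  obtain ⟨a, β, L1, h1⟩ := hPara c
  obtain ⟨C, L2, h2⟩ := hParb c a β
  refine ⟨a, β, C, max L1 L2, ?_⟩
  intro α _ A s x hL
  set L := lg (sz A x s) with hLdef
  obtain ⟨k, s', η, κ, δ, hP, hR, hK0, hKP, hq0, hqP, hkd, hδ, hkq, htδ, hη, hη1, hκ, hηt, herr⟩ :=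
    h1 L (le_trans (le_max_left _ _) hL)
  obtain ⟨n1, n2⟩ := two_pow_lg (sz A x s)
  rw [← hLdef] at n1 n2
  have hsz : sz A x s = s x + A.m x + A.T x + A.w x := rfl
  have hcap : 2 ^ (C * L) ≤ (4 * sz A x s + 4) ^ C := by
    rw [mul_comm, pow_mul]
    exact Nat.pow_le_pow_left n2 C
  have hZ := h2 L (le_trans (le_max_right _ _) hL) _ hcap
  have hzn : zn A x s c a β C = ZZ c a β L := hZ
  set Z := ZZ c a β L with hZdef
  have hZpos : 0 < Z := by
    rw [hZdef]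
    unfold ZZ
    exact Nat.mul_pos (Nat.mul_pos (pow_pos hP.pos _) (pow_pos hR.pos _))
      (pow_pos (Nat.mul_pos hq0 hP.pos) _)
  set F : (ℕ → ℕ) → (ℕ → ℕ) → (ℕ → ℕ) → Bool := fun A' θ s'' =>
    res A x (WW c L) (KK c a β L) (tt a L) (pt (PP c L) (KK c a β L) (tt a L) L A')
      (cut (A.m x) (cn (RR c L) (PP c L) (KK c a β L) (tt a L) L (dd a L) A' θ s'')) with hF
  have hdig := hDig (PP c L) (RR c L) (qn c L * PP c L) (tt a L + 2) (dd a L) (KK c a β L) F (by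
    intro A1 A2 θ1 θ2 s1 s2 e1 e2 e3
    simp only [hF]
    rw [pt_congr e1, cn_congr hK0 e1 e2 e3])
  set ρ : ℝ := pr fun z : (Fin (tt a L + 2) → Fin (PP c L)) × (Fin (dd a L) → Fin (RR c L)) ×
    (Fin (KK c a β L) → Fin (qn c L * PP c L)) => F (ext z.1) (ext z.2.1) (ext z.2.2) = true
    with hρ
  have han : (an A x s c a β C : ℝ) = Z * ρ := by
    unfold an
    rw [hzn]
    exact hdig
  have htot := hTot α A x (WW c L) (KK c a β L) (tt a L) L (PP c L) (RR c L) (dd a L) (qn c L) k s'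
    η κ δ hP hR hK0 hKP hq0 hqP (by omega) hkd hδ hkq htδ hη hη1 hκ hηt
  have htot' : |ρ - (A.acc x : ℝ) / 2 ^ A.m x| < 1 / (2 * (L : ℝ) ^ c) := by
    refine lt_of_le_of_lt htot (lt_of_le_of_lt ?_ herr)
    have hT : (A.T x : ℝ) ≤ 2 ^ L := by
      have : A.T x ≤ 2 ^ L := by omega
      exact_mod_cast this
    have hw : (A.w x : ℝ) ≤ 2 ^ L := by
      have : A.w x ≤ 2 ^ L := by omega
      exact_mod_cast this
    have hTw : (A.T x : ℝ) * (A.w x : ℝ) ≤ 2 ^ (2 * L) := by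
      rw [two_mul, pow_add]
      exact mul_le_mul hT hw (Nat.cast_nonneg _) (by positivity)
    have hdiv : (A.T x : ℝ) * (A.w x : ℝ) / 2 ^ WW c L ≤ 2 ^ (2 * L) / 2 ^ WW c L :=
      div_le_div_of_nonneg_right hTw (by positivity)
    linarith
  set l := lg (s x) with hl
  have hlL : l ≤ L := by
    rw [hl, hLdef]
    unfold lg
    have := Nat.log_mono_right (b := 2) (show s x ≤ sz A x s by omega)
    omega
  have hl0 : 0 < l := by rw [hl]; unfold lg; omega
  have hlc : (0 : ℝ) < (l : ℝ) ^ c := pow_pos (Nat.cast_pos.2 hl0) c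
  have hLc : (l : ℝ) ^ c ≤ (L : ℝ) ^ c :=
    pow_le_pow_left₀ (Nat.cast_nonneg _) (by exact_mod_cast hlL) c
  have hbd : 1 / (2 * (L : ℝ) ^ c) ≤ 1 / (2 * (l : ℝ) ^ c) :=
    one_div_le_one_div_of_le (by linarith) (by linarith)
  -- rounding
  have hapx : apx A x s c a β C = (2 * l ^ c * an A x s c a β C + Z) / (2 * Z) := by
    unfold apx
    rw [hzn]
  set m := apx A x s c a β C with hm
  have hZr : (0 : ℝ) < Z := by exact_mod_cast hZpos
  have r1 : (m : ℝ) * (2 * Z) ≤ 2 * (l : ℝ) ^ c * (Z * ρ) + Z := by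
    rw [← han]
    have : m * (2 * Z) ≤ 2 * l ^ c * an A x s c a β C + Z := by
      rw [hapx]
      exact Nat.div_mul_le_self _ _
    exact_mod_cast this
  have r2 : 2 * (l : ℝ) ^ c * (Z * ρ) + Z < ((m : ℝ) + 1) * (2 * Z) := by
    rw [← han]
    have : 2 * l ^ c * an A x s c a β C + Z < (m + 1) * (2 * Z) := by
      rw [hapx, add_mul, one_mul]
      exact Nat.lt_div_mul_add (Nat.mul_pos two_pos hZpos)
    exact_mod_cast this
  have r3 : |(m : ℝ) - (l : ℝ) ^ c * ρ| ≤ 1 / 2 := by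
    apply rounding hZr
    · linarith
    · linarith
  exact final_bound hlc r3 htot' hbd

end Pool.Agent.Helper39.DT
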